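import Mathlib
import Pool.Agent.Work.MP_b25393_ag.Bd.B02
import Pool.Agent.Work.MP_b25393_ag.Bd.B01

set_option autoImplicit false

open scoped LinearAlgebra.Projectivization

namespace Pool.Agent.Work.MP_b25393_ag

open Projectivization Matrix

/-- sum of `m - 2` -/
lemma X_bound (n : ℤ) (hn : 1 ≤ n) :
    2104800 * n ^ 2 - 10 ^ 7 * n ≤ (f1 (AN (60 * n)) : ℤ) - 2 * f0 (AN (60 * n)) := by
  classical
  set A := AN (60 * n) with hA
  have hN : (60 : ℤ) ≤ 60 * n := by omega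
  have hG : Monotone (fun m : ℕ => m - 2) := fun a b h => Nat.sub_le_sub_right h 2
  have h1 := aff_sum (60 * n) hN (fun m => m - 2) hG
  have h2 := sum_verts_ge A (fun m => m - 2) (fun m hm => by omega)
    ((Iset (60 * n)).image (Ph (60 * n)))
  have h3 : ((∑ p ∈ verts A, (mult A p - 2) : ℕ) : ℤ) = (f1 A : ℤ) - 2 * f0 A := by
    unfold f0 f1
    push_cast
    rw [mul_comm, ← nsmul_eq_mul, ← Finset.sum_const, ← Finset.sum_sub_distrib]
    refine Finset.sum_congr rfl fun p hp => ?_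
    have := mem_verts.mp hp
    omega
  rw [← h3]
  have h4 := h1.trans h2
  have c0 := card0 n hn
  have c1 := card1 n hn
  have c2 := card2 n hn
  have c3 := card3 n hn
  have c4 := card4 n hn
  have c5 := card5 n hn
  have c6 := card6 n hn
  have k0 := KK_0.1
  have k1 := KK_1.1
  have k2 := KK_2.1
  have k3 := KK_3.1
  have k4 := KK_4.1
  have h5 : ((∑ π : Fin 7, (TT (60 * n) π).card * KK (fun m => m - 2) (tt π) : ℕ) : ℤ)
      = ((TT (60 * n) 0).card : ℤ) * 4688 + ((TT (60 * n) 1).card : ℤ) * 4672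
        + ((TT (60 * n) 2).card : ℤ) * 4672 + ((TT (60 * n) 3).card : ℤ) * 4688
        + ((TT (60 * n) 4).card : ℤ) * 4672 + ((TT (60 * n) 5).card : ℤ) * 4672
        + ((TT (60 * n) 6).card : ℤ) * 4656 := by
    rw [Fin.sum_univ_seven]
    simp only [tt, Matrix.cons_val_zero, Matrix.cons_val_one, Matrix.cons_val]
    rw [k0, k1, k2, k3, k4]
    push_cast
    rfl
  have h6 : ((∑ π : Fin 7, (TT (60 * n) π).card * KK (fun m => m - 2) (tt π) : ℕ) : ℤ)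
      ≤ ((∑ p ∈ verts A, (mult A p - 2) : ℕ) : ℤ) := by exact_mod_cast h4
  rw [h5] at h6
  refine le_trans ?_ h6
  ring_nf at c0 c1 c2 c3 c4 c5 c6 ⊢
  linarith

/-- sum of `(m - 1) (m - 2)` -/
lemma Z_bound (n : ℤ) (hn : 1 ≤ n) :
    9310080 * n ^ 2 - 5 * 10 ^ 7 * n ≤
      ((∑ p ∈ verts (AN (60 * n)), (mult (AN (60 * n)) p - 1) * (mult (AN (60 * n)) p - 2) : ℕ)
        : ℤ) := by
  classical
  set A := AN (60 * n) with hA
  have hN : (60 : ℤ) ≤ 60 * n := by omega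
  have hG : Monotone (fun m : ℕ => (m - 1) * (m - 2)) := fun a b h =>
    Nat.mul_le_mul (Nat.sub_le_sub_right h 1) (Nat.sub_le_sub_right h 2)
  have h1 := aff_sum (60 * n) hN (fun m => (m - 1) * (m - 2)) hG
  have hi := inf_sum (60 * n) (by omega)
  have h2 := sum_verts_ge A (fun m => (m - 1) * (m - 2))
    (fun m hm => by
      have : m - 1 = 0 := by omega
      simp [this])
    ((Iset (60 * n)).image (Ph (60 * n)) ∪ Dset.image ip)
  rw [Finset.sum_union (disj_aff_inf (60 * n))] at h2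
  have c0 := card0 n hn
  have c1 := card1 n hn
  have c2 := card2 n hn
  have c3 := card3 n hn
  have c4 := card4 n hn
  have c5 := card5 n hn
  have c6 := card6 n hn
  have k0 := KK_0.2
  have k1 := KK_1.2
  have k2 := KK_2.2
  have k3 := KK_3.2
  have k4 := KK_4.2
  have h5 : ((∑ π : Fin 7, (TT (60 * n) π).card * KK (fun m => (m - 1) * (m - 2)) (tt π) : ℕ)
      : ℤ) = ((TT (60 * n) 0).card : ℤ) * 14848 + ((TT (60 * n) 1).card : ℤ) * 14784
        + ((TT (60 * n) 2).card : ℤ) * 14784 + ((TT (60 * n) 3).card : ℤ) * 14816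
        + ((TT (60 * n) 4).card : ℤ) * 14768 + ((TT (60 * n) 5).card : ℤ) * 14768
        + ((TT (60 * n) 6).card : ℤ) * 14720 := by
    rw [Fin.sum_univ_seven]
    simp only [tt, Matrix.cons_val_zero, Matrix.cons_val_one, Matrix.cons_val]
    rw [k0, k1, k2, k3, k4]
    push_cast
    rfl
  have h7 : ((∑ p ∈ (Iset (60 * n)).image (Ph (60 * n)), (mult A p - 1) * (mult A p - 2) : ℕ) : ℤ)
      + ((∑ p ∈ Dset.image ip, (mult A p - 1) * (mult A p - 2) : ℕ) : ℤ)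
      ≤ ((∑ p ∈ verts A, (mult A p - 1) * (mult A p - 2) : ℕ) : ℤ) := by exact_mod_cast h2
  have h8 : ((∑ π : Fin 7, (TT (60 * n) π).card * KK (fun m => (m - 1) * (m - 2)) (tt π) : ℕ) : ℤ)
      ≤ ((∑ p ∈ (Iset (60 * n)).image (Ph (60 * n)), (mult A p - 1) * (mult A p - 2) : ℕ) : ℤ) := by
    exact_mod_cast h1
  rw [h5] at h8
  rw [← hA] at hi
  refine le_trans ?_ h7
  generalize ((∑ p ∈ (Iset (60 * n)).image (Ph (60 * n)), (mult A p - 1) * (mult A p - 2) : ℕ) : ℤ)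
    = S1 at h8 ⊢
  generalize ((∑ p ∈ Dset.image ip, (mult A p - 1) * (mult A p - 2) : ℕ) : ℤ) = S2 at hi ⊢
  ring_nf at c0 c1 c2 c3 c4 c5 c6 hi h8 ⊢
  linarith

lemma sum_Z (A : Finset PP) (hA : 3 ≤ A.card) :
    ((∑ p ∈ verts A, (mult A p - 1) * (mult A p - 2) : ℕ) : ℤ)
      = (A.card : ℤ) * (A.card - 1) - 2 * ((f1 A : ℤ) - f0 A) := by
  have h := sum_mult A
  have h1 : ((∑ p ∈ verts A, mult A p * (mult A p - 1) : ℕ) : ℤ)
      = (A.card : ℤ) * (A.card - 1) := by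
    rw [h]
    push_cast
    rw [Nat.cast_sub (by omega)]
    push_cast
    ring
  rw [← h1]
  unfold f0 f1
  push_cast
  have h2 : (((verts A).card : ℕ) : ℤ) = ∑ p ∈ verts A, (1 : ℤ) := by simp
  rw [h2, ← Finset.sum_sub_distrib, Finset.mul_sum, ← Finset.sum_sub_distrib]
  refine Finset.sum_congr rfl fun p hp => ?_
  have h3 := mem_verts.mp hp
  obtain ⟨k, hk⟩ : ∃ k, mult A p = k + 2 := ⟨mult A p - 2, by omega⟩
  rw [hk]
  have e1 : k + 2 - 1 = k + 1 := by omega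
  have e2 : k + 2 - 2 = k := by omega
  rw [e1, e2]
  push_cast
  ring

lemma final_int (n : ℤ) (hn : 10 ^ 6 ≤ n) (d x y z : ℤ) (hd : d = 4320 * n + 8)
    (hx : 2104800 * n ^ 2 - 10 ^ 7 * n ≤ x) (hz : 9310080 * n ^ 2 - 5 * 10 ^ 7 * n ≤ z)
    (hzy : z = d * (d - 1) - 2 * y) : 0 ≤ 33 - 2 * d + 20 * x - 9 * y := by
  have h1 : 2 * y = d * (d - 1) - z := by linarith
  have h2 : d * (d - 1) = 18662400 * n ^ 2 + 64800 * n + 56 := by rw [hd]; ring
  have h3 : 10 ^ 6 * n ≤ n ^ 2 := by nlinarith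
  nlinarith

lemma final_real (n : ℤ) (hn1 : 10 ^ 6 ≤ n) (c e0 e1 : ℕ) (K : ℝ) (hKn : K ≤ (n : ℝ))
    (hc : (c : ℤ) = 4320 * n + 8)
    (hx : 2104800 * n ^ 2 - 10 ^ 7 * n ≤ (e1 : ℤ) - 2 * e0)
    (hfin : 0 ≤ 33 - 2 * (c : ℤ) + 20 * ((e1 : ℤ) - 2 * e0) - 9 * ((e1 : ℤ) - e0)) :
    K ≤ c ∧ K * c ≤ 3 - 2 * c + e1 - e0 ∧
      (49 / 20 : ℝ) ≤ (9 - 5 * c + 3 * e1 - 4 * e0) / (3 - 2 * c + e1 - e0) := by
  have hnR : (10 : ℝ) ^ 6 ≤ (n : ℝ) := by exact_mod_cast hn1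
  have hcR : (c : ℝ) = 4320 * n + 8 := by exact_mod_cast hc
  have hxR : 2104800 * (n : ℝ) ^ 2 - 10 ^ 7 * n ≤ (e1 : ℝ) - 2 * e0 := by
    exact_mod_cast hx
  have hfR : (0 : ℝ) ≤ 33 - 2 * c + 20 * ((e1 : ℝ) - 2 * e0) - 9 * ((e1 : ℝ) - e0) := by
    exact_mod_cast hfin
  have hf0 : (0 : ℝ) ≤ e0 := by positivity
  have hnn : 10 ^ 6 * (n : ℝ) ≤ (n : ℝ) ^ 2 := by nlinarith
  have hbig : (c : ℝ) * n ≤ 3 - 2 * c + e1 - e0 := by
    rw [hcR]
    nlinarith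
  refine ⟨?_, ?_, ?_⟩
  · rw [hcR]
    linarith
  · refine le_trans ?_ hbig
    rw [mul_comm]
    exact mul_le_mul_of_nonneg_left hKn (by positivity)
  · have hpos : (0 : ℝ) < 3 - 2 * c + e1 - e0 := by
      refine lt_of_lt_of_le ?_ hbig
      rw [hcR]
      nlinarith
    rw [le_div_iff₀ hpos]
    linarith

theorem exists_arr (K : ℝ) : ∃ A : Finset PP, nondeg A ∧ K ≤ A.card ∧
      K * A.card ≤ 3 - 2 * A.card + f1 A - f0 A ∧
      (49 / 20 : ℝ) ≤ (9 - 5 * A.card + 3 * f1 A - 4 * f0 A) / (3 - 2 * A.card + f1 A - f0 A) := by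
  obtain ⟨n0, hn0⟩ := exists_nat_ge K
  obtain ⟨n, hn1, hKn⟩ : ∃ n : ℤ, 10 ^ 6 ≤ n ∧ K ≤ (n : ℝ) := by
    refine ⟨(n0 : ℤ) + 10 ^ 6, by omega, ?_⟩
    push_cast
    linarith
  have hn2 : 1 ≤ n := le_trans (by norm_num) hn1
  have hN : 1 ≤ 60 * n := by linarith
  have hc := card_AN (60 * n) hN
  have hx := X_bound n hn2
  have hz := Z_bound n hn2
  have hnd := nondeg_AN (60 * n) hN
  rw [sum_Z _ hnd.1] at hz
  have hc' : ((AN (60 * n)).card : ℤ) = 4320 * n + 8 := by rw [hc]; ring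
  have hfin := final_int n hn1 _ _ _ _ hc' hx hz rfl
  exact ⟨AN (60 * n), hnd, final_real n hn1 _ _ _ K hKn hc' hx hfin⟩

theorem main : Set.Icc (2 : ℝ) (49 / 20) ⊆ derivedSet slopes :=
  Icc_subset_derivedSet _ exists_arr (by norm_num)

end Pool.Agent.Work.MP_b25393_ag
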